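import Pool.Agent.X319.L2.E

set_option autoImplicit false

namespace Pool.Agent.X319.L2

open scoped BigOperators

/-- the space `ℓ₂` -/
abbrev X2 : Type := lp (fun _ : ℕ => ℝ) 2

/-- truncation to the first `n` coordinates -/
noncomputable def P2 (n : ℕ) : X2 →ₗ[ℝ] X2 where
  toFun x := ∑ i ∈ Finset.range n, lp.single 2 i (x i)
  map_add' x y := by
    rw [← Finset.sum_add_distrib]
    refine Finset.sum_congr rfl fun i _ => ?_
    rw [← lp.single_add]
    rfl
  map_smul' c x := by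
    rw [Finset.smul_sum]
    refine Finset.sum_congr rfl fun i _ => ?_
    rw [RingHom.id_apply, ← lp.single_smul]
    rfl

theorem P2_def (n : ℕ) (x : X2) : P2 n x = ∑ i ∈ Finset.range n, lp.single 2 i (x i) := rfl

theorem P2_apply (n : ℕ) (x : X2) (j : ℕ) : (P2 n x) j = if j < n then x j else 0 := by
  rw [P2_def, lp.coeFn_sum, Finset.sum_apply]
  simp only [lp.coeFn_single, Finset.sum_pi_single, Finset.mem_range]

theorem norm_P2 (n : ℕ) (x : X2) : ‖P2 n x‖ ^ 2 = ∑ i ∈ Finset.range n, (x i) ^ 2 := by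
  have h := lp.norm_sum_single (p := 2) (E := fun _ : ℕ => ℝ) (by simp) (fun i => x i)
    (Finset.range n)
  simpa [P2_def] using h

theorem split2 (n : ℕ) (x : X2) : ‖x‖ ^ 2 = ‖P2 n x‖ ^ 2 + ‖x - P2 n x‖ ^ 2 := by
  have h := lp.norm_sub_norm_compl_sub_single (p := 2) (E := fun _ : ℕ => ℝ) (by simp) x
    (Finset.range n)
  have h2 := norm_P2 n x
  simp only [ENNReal.toReal_ofNat, Real.rpow_ofNat, Real.norm_eq_abs, sq_abs] at h
  rw [← P2_def] at h
  linarith

theorem P2_le (n : ℕ) (x : X2) : ‖P2 n x‖ ≤ ‖x‖ := by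
  have h := split2 n x
  exact le_of_sq_le_sq' (by nlinarith [sq_nonneg ‖x - P2 n x‖]) (norm_nonneg _)
where
  le_of_sq_le_sq' {a b : ℝ} (h : a ^ 2 ≤ b ^ 2) (hb : 0 ≤ b) : a ≤ b := by
    exact le_of_abs_le (abs_le_of_sq_le_sq h hb)

theorem P2_low (m n : ℕ) (x : X2) (h : m ≤ n) : P2 m (P2 n x) = P2 m x := by
  ext j
  rw [P2_apply, P2_apply, P2_apply]
  split_ifs <;> first | rfl | omega

theorem P2_high (m n : ℕ) (x : X2) (h : m ≤ n) : P2 n (P2 m x) = P2 m x := by
  ext j
  rw [P2_apply, P2_apply]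
  split_ifs <;> first | rfl | omega

/-- the coordinate structure of `ℓ₂` -/
noncomputable def D2 : Dec X2 where
  P := P2
  c := fun n x => x n
  e := fun n => lp.single 2 n 1
  gr := fun k => Real.sqrt k
  P_zero := fun x => by rw [P2_def]; simp
  P_succ := fun n x => by
    rw [P2_def, P2_def, Finset.sum_range_succ, ← lp.single_smul, smul_eq_mul, mul_one]
  norm_e := fun n => by rw [lp.norm_single (by simp)]; simp
  c_le := fun m n x h => by
    refine abs_le_of_sq_le_sq ?_ (norm_nonneg _)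
    rw [norm_P2]
    exact Finset.single_le_sum (f := fun i => (x i) ^ 2) (fun i _ => sq_nonneg _)
      (Finset.mem_range.2 h)
  P_low := P2_low
  P_high := P2_high
  P_le := P2_le
  gr_nonneg := fun k => Real.sqrt_nonneg _
  merge := fun k n m x h => by
    have h1 := split2 n (P2 m x)
    rw [P2_low n m x h] at h1
    refine le_of_abs_le (abs_le_of_sq_le_sq ?_ (by positivity))
    have hk : Real.sqrt (k : ℝ) ^ 2 = k := Real.sq_sqrt (Nat.cast_nonneg k)
    have hk1 : Real.sqrt ((k + 1 : ℕ) : ℝ) ^ 2 = k + 1 := by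
      rw [Real.sq_sqrt (Nat.cast_nonneg _)]; push_cast; ring
    rw [mul_pow, hk1, h1]
    nlinarith [sq_nonneg (‖P2 n x‖ - Real.sqrt (k : ℝ) * ‖P2 m x - P2 n x‖), hk]
  small := fun b δ hδ => by
    obtain ⟨k, hk⟩ := exists_nat_gt ((|b| / δ) ^ 2 + 1)
    have hb : 0 ≤ |b| / δ := by positivity
    have hk0 : (0:ℝ) < k := by nlinarith
    have hs : |b| / δ < Real.sqrt k := by
      rw [Real.lt_sqrt hb]
      linarith
    rw [div_lt_iff₀ hδ] at hs
    refine ⟨k, ?_⟩
    have h1 : b * Real.sqrt k ≤ |b| * Real.sqrt k :=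
      mul_le_mul_of_nonneg_right (le_abs_self b) (Real.sqrt_nonneg _)
    have h2 : |b| * Real.sqrt k < Real.sqrt k * δ * Real.sqrt k :=
      mul_lt_mul_of_pos_right hs (Real.sqrt_pos.2 hk0)
    have h3 : Real.sqrt k * δ * Real.sqrt k = k * δ := by
      have := Real.mul_self_sqrt hk0.le
      calc Real.sqrt k * δ * Real.sqrt k = (Real.sqrt k * Real.sqrt k) * δ := by ring
        _ = k * δ := by rw [this]
    linarith
  tend := fun x => (lp.hasSum_single (by simp) x).tendsto_sum_nat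

end Pool.Agent.X319.L2
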