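import Pool.Agent.TH326.L1b

set_option autoImplicit false

/-! Copies of `c₀` in Lipschitz-free spaces over spaces with a decomposition whose blocks grow
sublinearly (for example `ℓ_p`, `1 ≤ p < ∞`).  This generalises `Pool.Agent.TH326.L1c`. -/

namespace Pool.Agent.X319.L2

open scoped BigOperators
open Pool.Agent.TH326.L1 (RL M Phi WUC Phi_smul_right Phi_zero_left Phi_add_left Phi_add_right
  Phi_smul_left M_add M_eq M_congr M_smul M_sub M_neg M_sum M_close)

variable {E : Type} [NormedAddCommGroup E] [NormedSpace ℝ E]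

/-- coordinate structure of an `ℓ_p`-like space; `gr` is the growth of sums of blocks -/
structure Dec (E : Type) [NormedAddCommGroup E] [NormedSpace ℝ E] where
  P : ℕ → E →ₗ[ℝ] E
  c : ℕ → E → ℝ
  e : ℕ → E
  gr : ℕ → ℝ
  P_zero : ∀ x, P 0 x = 0
  P_succ : ∀ n x, P (n + 1) x = P n x + c n x • e n
  norm_e : ∀ n, ‖e n‖ = 1
  c_le : ∀ m n x, m < n → |c m x| ≤ ‖P n x‖
  P_low : ∀ m n x, m ≤ n → P m (P n x) = P m x
  P_high : ∀ m n x, m ≤ n → P n (P m x) = P m x
  P_le : ∀ n x, ‖P n x‖ ≤ ‖x‖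
  gr_nonneg : ∀ k, 0 ≤ gr k
  merge : ∀ k n m x, n ≤ m → gr k * ‖P n x‖ + ‖P m x - P n x‖ ≤ gr (k + 1) * ‖P m x‖
  small : ∀ b δ : ℝ, 0 < δ → ∃ k : ℕ, b * gr k < k * δ
  tend : ∀ x, Filter.Tendsto (fun n => P n x) Filter.atTop (nhds x)

/-- Lipschitz with constant `A` in the first `N` coordinates and `B` in the others -/
def LipN (D : Dec E) (N : ℕ) (A B : ℝ) (g : E → ℝ) : Prop :=
  ∀ x y, |g x - g y| ≤ A * ‖D.P N (x - y)‖ + B * ‖(x - y) - D.P N (x - y)‖

/-- `g` depends on the first `n` coordinates -/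
def Cyl (D : Dec E) (n : ℕ) (g : E → ℝ) : Prop := ∀ x, g (D.P n x) = g x

theorem Cyl.mono {D : Dec E} {m n : ℕ} {g : E → ℝ} (h : Cyl D m g) (hmn : m ≤ n) :
    Cyl D n g := by
  intro x
  rw [← h (D.P n x), D.P_low m n x hmn, h x]

theorem Cyl.add {D : Dec E} {n : ℕ} {g h : E → ℝ} (hg : Cyl D n g) (hh : Cyl D n h) :
    Cyl D n (g + h) := by
  intro x
  simp only [Pi.add_apply]
  rw [hg x, hh x]

theorem Cyl.smul {D : Dec E} {n : ℕ} {g : E → ℝ} (c : ℝ) (hg : Cyl D n g) :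
    Cyl D n (c • g) := by
  intro x
  simp only [Pi.smul_apply]
  rw [hg x]

theorem norm_P_le (D : Dec E) (n : ℕ) (x : E) : ‖D.P n x‖ ≤ ‖x‖ := D.P_le n x

theorem tail_step (D : Dec E) {G g : E → ℝ} {N m k : ℕ} {S η : ℝ} (hS : 0 ≤ S) (hη : 0 ≤ η)
    (hNm : N ≤ m) (hG : ∀ x y, |G x - G y| ≤ (S + D.gr k) * ‖D.P N (x - y)‖)
    (hgm : Cyl D m g) (hg : LipN D N η 1 g) (σ : ℝ) (hσ : |σ| = 1) :
    ∀ x y, |(G + σ • g) x - (G + σ • g) y| ≤ ((S + η) + D.gr (k + 1)) * ‖D.P m (x - y)‖ := by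
  intro x y
  simp only [Pi.add_apply, Pi.smul_apply, smul_eq_mul]
  have h1 := hG x y
  have h2 : |g x - g y| ≤ η * ‖D.P N (x - y)‖ + ‖D.P m (x - y) - D.P N (x - y)‖ := by
    rw [← hgm x, ← hgm y]
    have h := hg (D.P m x) (D.P m y)
    rw [← map_sub, D.P_low N m _ hNm, one_mul] at h
    exact h
  have h3 := D.merge k N m (x - y) hNm
  have h4 : |σ * g x - σ * g y| = |g x - g y| := by
    rw [← mul_sub, abs_mul, hσ, one_mul]
  have h5 : |G x + σ * g x - (G y + σ * g y)| ≤ |G x - G y| + |σ * g x - σ * g y| := by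
    have := abs_add_le (G x - G y) (σ * g x - σ * g y)
    refine le_trans (le_of_eq ?_) this
    congr 1; ring
  rw [h4] at h5
  have h6 : ‖D.P N (x - y)‖ ≤ ‖D.P m (x - y)‖ := by
    rw [← D.P_low N m _ hNm]
    exact D.P_le N _
  have h7 : (S + η) * ‖D.P N (x - y)‖ ≤ (S + η) * ‖D.P m (x - y)‖ :=
    mul_le_mul_of_nonneg_left h6 (by linarith)
  nlinarith

/-- the tail lemma -/
theorem tail (D : Dec E) {μ : ℕ → E →₀ ℝ} {b : ℝ} (hW : WUC μ b) {δ : ℝ}
    (hδ : 0 < δ) : ∃ N p : ℕ, ∀ θ : ℕ →₀ ℝ, (∀ j, |θ j| ≤ 1) → (∀ j, j < p → θ j = 0) →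
      ∀ (n : ℕ) (g : E → ℝ) (A B : ℝ), Cyl D n g → 0 ≤ A → 0 ≤ B → LipN D N A B g →
        Phi μ θ g ≤ b * A + δ * B := by
  by_contra hcon
  push Not at hcon
  have norm1 : ∀ N p : ℕ, ∃ θ : ℕ →₀ ℝ, (∀ j, |θ j| ≤ 1) ∧ (∀ j, j < p → θ j = 0) ∧
      ∃ (n : ℕ) (g : E → ℝ) (η : ℝ), Cyl D n g ∧ 0 ≤ η ∧ LipN D N η 1 g ∧
        b * η + δ < Phi μ θ g := by
    intro N p
    obtain ⟨θ, hθ, hθp, n, g, A, B, hn, hA, hB, hAB, hlt⟩ := hcon N p
    have hBpos : 0 < B := by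
      rcases hB.lt_or_eq with h | h
      · exact h
      · exfalso
        subst h
        have h1 : RL A g := by
          intro x y
          refine (hAB x y).trans ?_
          rw [zero_mul, add_zero]
          exact mul_le_mul_of_nonneg_left (norm_P_le D N _) hA
        have h2 := hW θ hθ g A hA h1
        linarith
    refine ⟨θ, hθ, hθp, n, B⁻¹ • g, B⁻¹ * A, hn.smul _, by positivity, ?_, ?_⟩
    · intro x y
      simp only [Pi.smul_apply, smul_eq_mul]
      rw [← mul_sub, abs_mul, abs_of_pos (by positivity : 0 < B⁻¹)]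
      have h1 := mul_le_mul_of_nonneg_left (hAB x y) (by positivity : 0 ≤ B⁻¹)
      refine h1.trans (le_of_eq ?_)
      field_simp
    · rw [Phi_smul_right]
      have h1 := mul_lt_mul_of_pos_left hlt (by positivity : 0 < B⁻¹)
      refine lt_of_le_of_lt (le_of_eq ?_) h1
      field_simp
  have key : ∀ K : ℕ, ∃ (G : E → ℝ) (N n : ℕ) (S : ℝ) (θ : ℕ →₀ ℝ), 0 ≤ S ∧
      (∀ x y, |G x - G y| ≤ (S + D.gr K) * ‖D.P N (x - y)‖) ∧
      (∀ j, |θ j| ≤ 1) ∧ (∀ j, n ≤ j → θ j = 0) ∧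
      b * S + K * δ ≤ Phi μ θ G := by
    intro K
    induction K with
    | zero =>
      refine ⟨0, 0, 0, 0, 0, le_rfl, ?_, by simp, by simp, by simp [Phi_zero_left]⟩
      intro x y
      simp only [Pi.zero_apply, sub_self, abs_zero, zero_add]
      exact mul_nonneg (D.gr_nonneg 0) (norm_nonneg _)
    | succ K ih =>
      obtain ⟨G, N, n, S, θ, hS, hG, hθ, hθn, hK⟩ := ih
      obtain ⟨θ', hθ', hθ'p, m, g, η, hgm, hη, hgL, hlt⟩ := norm1 N n
      obtain ⟨n', hn', hθ'n⟩ : ∃ n', n ≤ n' ∧ ∀ j, n' ≤ j → θ' j = 0 := by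
        refine ⟨max n (θ'.support.sup id + 1), le_max_left _ _, fun j hj => ?_⟩
        by_contra hne
        have h1 : j ∈ θ'.support := Finsupp.mem_support_iff.mpr hne
        have h2 : j ≤ θ'.support.sup id := Finset.le_sup (f := id) h1
        have h3 := (le_max_right n (θ'.support.sup id + 1)).trans hj
        omega
      have habs : ∀ σ : ℝ, |σ| = 1 → ∀ i, |(θ + σ • θ') i| ≤ 1 := by
        intro σ hσ i
        simp only [Finsupp.add_apply, Finsupp.smul_apply, smul_eq_mul]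
        rcases lt_or_ge i n with hi | hi
        · rw [hθ'p i hi, mul_zero, add_zero]; exact hθ i
        · rw [hθn i hi, zero_add, abs_mul, hσ, one_mul]; exact hθ' i
      have hsup : ∀ σ : ℝ, ∀ i, n' ≤ i → (θ + σ • θ') i = 0 := by
        intro σ i hi
        simp only [Finsupp.add_apply, Finsupp.smul_apply, smul_eq_mul]
        rw [hθn i (hn'.trans hi), hθ'n i hi, mul_zero, add_zero]
      have hRL : ∀ σ : ℝ, |σ| = 1 → ∀ x y, |(G + σ • g) x - (G + σ • g) y| ≤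
          ((S + η) + D.gr (K + 1)) * ‖D.P (max N m) (x - y)‖ := by
        intro σ hσ
        exact tail_step D hS hη (le_max_left N m) hG (hgm.mono (le_max_right N m)) hgL σ hσ
      by_cases hs : 0 ≤ Phi μ θ g + Phi μ θ' G
      · refine ⟨G + (1:ℝ) • g, max N m, n', S + η, θ + (1:ℝ) • θ', by positivity,
          hRL 1 (by simp), habs 1 (by simp), hsup 1, ?_⟩
        rw [Phi_add_left, Phi_smul_left, Phi_add_right, Phi_add_right, Phi_smul_right,
          Phi_smul_right]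
        push_cast
        linarith
      · refine ⟨G + (-1:ℝ) • g, max N m, n', S + η, θ + (-1:ℝ) • θ', by positivity,
          hRL _ (by simp), habs _ (by simp), hsup _, ?_⟩
        rw [Phi_add_left, Phi_smul_left, Phi_add_right, Phi_add_right, Phi_smul_right,
          Phi_smul_right]
        push_cast
        linarith
  obtain ⟨K, hK⟩ := D.small b δ hδ
  obtain ⟨G, N, n, S, θ, hS, hG, hθ, hθn, hKδ⟩ := key K
  have hgr := D.gr_nonneg K
  have h1 := hW θ hθ G (S + D.gr K) (by linarith) (by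
    intro x y
    exact (hG x y).trans (mul_le_mul_of_nonneg_left (D.P_le N _) (by linarith)))
  linarith

end Pool.Agent.X319.L2
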