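import Pool.Agent.X319.L2.C

set_option autoImplicit false

namespace Pool.Agent.X319.L2

open scoped BigOperators
open Pool.Agent.TH326.L1 (RL)

variable {E : Type} [NormedAddCommGroup E] [NormedSpace ℝ E]

omit [NormedSpace ℝ E] in
theorem RLcont {K : ℝ} {g : E → ℝ} (hK : 0 ≤ K) (hg : RL K g) : Continuous g := by
  have : LipschitzWith ⟨K, hK⟩ g := LipschitzWith.of_dist_le_mul fun x y => by
    rw [Real.dist_eq, dist_eq_norm]; exact hg x y
  exact this.continuous

/-- averaging in direction `e` at scale `s` -/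
noncomputable def avg (s : ℝ) (e : E) (g : E → ℝ) : E → ℝ :=
  fun x => s⁻¹ * ∫ τ in (0:ℝ)..s, g (x + τ • e)

theorem cont_line {g : E → ℝ} (hg : Continuous g) (x e : E) :
    Continuous fun τ : ℝ => g (x + τ • e) :=
  hg.comp (continuous_const.add (continuous_id.smul continuous_const))

theorem avg_bound {s : ℝ} (hs : 0 < s) {φ : ℝ → ℝ} {c : ℝ}
    (h : ∀ τ, 0 ≤ τ → τ ≤ s → |φ τ| ≤ c) : |s⁻¹ * ∫ τ in (0:ℝ)..s, φ τ| ≤ c := by
  have h1 : ‖∫ τ in (0:ℝ)..s, φ τ‖ ≤ c * |s - 0| := by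
    refine intervalIntegral.norm_integral_le_of_norm_le_const fun x hx => ?_
    rw [Set.uIoc_of_le hs.le] at hx
    exact h x hx.1.le hx.2
  rw [Real.norm_eq_abs, sub_zero, abs_of_pos hs] at h1
  rw [abs_mul, abs_of_pos (inv_pos.mpr hs)]
  calc s⁻¹ * |∫ τ in (0:ℝ)..s, φ τ| ≤ s⁻¹ * (c * s) :=
        mul_le_mul_of_nonneg_left h1 (inv_pos.mpr hs).le
    _ = c := by field_simp

theorem avg_sub {s : ℝ} {φ ψ : ℝ → ℝ} (hφ : Continuous φ) (hψ : Continuous ψ) :
    s⁻¹ * (∫ τ in (0:ℝ)..s, φ τ) - s⁻¹ * (∫ τ in (0:ℝ)..s, ψ τ) =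
      s⁻¹ * ∫ τ in (0:ℝ)..s, (φ τ - ψ τ) := by
  rw [intervalIntegral.integral_sub (hφ.intervalIntegrable _ _) (hψ.intervalIntegrable _ _)]
  ring

theorem avg_RL {s : ℝ} (hs : 0 < s) {e : E} {g : E → ℝ} {K : ℝ} (hK : 0 ≤ K) (hg : RL K g) :
    RL K (avg s e g) := by
  intro x y
  have hc := RLcont hK hg
  unfold avg
  rw [avg_sub (cont_line hc x e) (cont_line hc y e)]
  refine avg_bound hs fun τ _ _ => ?_
  have := hg (x + τ • e) (y + τ • e)
  rwa [add_sub_add_right_eq_sub] at this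

theorem avg_abs {s : ℝ} (hs : 0 < s) {e : E} {g : E → ℝ} {ε : ℝ} (hg : ∀ x, |g x| ≤ ε) :
    ∀ x, |avg s e g x| ≤ ε := fun _ => avg_bound hs fun _ _ _ => hg _

theorem avg_close {s : ℝ} (hs : 0 < s) {e : E} (he : ‖e‖ = 1) {g : E → ℝ} {K : ℝ} (hK : 0 ≤ K)
    (hg : RL K g) : ∀ x, |avg s e g x - g x| ≤ K * s := by
  intro x
  have hc := RLcont hK hg
  have h1 : g x = s⁻¹ * ∫ τ in (0:ℝ)..s, g x := by
    rw [intervalIntegral.integral_const, sub_zero, smul_eq_mul]
    field_simp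
  have h2 : avg s e g x - g x = s⁻¹ * ∫ τ in (0:ℝ)..s, (g (x + τ • e) - g x) := by
    conv_lhs => rw [h1]
    unfold avg
    rw [avg_sub (cont_line hc x e) continuous_const]
  rw [h2]
  refine avg_bound hs fun τ h0 hτ => ?_
  have := hg (x + τ • e) x
  rw [add_sub_cancel_left, norm_smul, he, mul_one, Real.norm_eq_abs, abs_of_nonneg h0] at this
  exact this.trans (mul_le_mul_of_nonneg_left hτ hK)

theorem avg_cyl (D : Dec E) {s : ℝ} {e : E} {g : E → ℝ} {n : ℕ} (hg : Cyl D n g) :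
    Cyl D n (avg s e g) := by
  intro x
  unfold avg
  congr 1
  congr 1
  ext τ
  rw [← hg (D.P n x + τ • e), ← hg (x + τ • e), map_add, map_add, D.P_high n n x le_rfl]

/-- second order expansion in direction `e` -/
def Dir (C : ℝ) (e : E) (g d : E → ℝ) : Prop :=
  ∀ (x : E) (t : ℝ), |g (x + t • e) - g x - t * d x| ≤ C * t ^ 2

theorem Dir.mono {C C' : ℝ} {e : E} {g d : E → ℝ} (h : Dir C e g d) (hC : C ≤ C') :
    Dir C' e g d := fun x t => (h x t).trans (mul_le_mul_of_nonneg_right hC (sq_nonneg t))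

theorem Dir_avg {C : ℝ} {e e' : E} {g d : E → ℝ} (h : Dir C e' g d) (hg : Continuous g)
    (hd : Continuous d) {s : ℝ} (hs : 0 < s) : Dir C e' (avg s e g) (avg s e d) := by
  intro x t
  have hc1 := cont_line hg (x + t • e') e
  have hc2 := cont_line hg x e
  have hc3 := cont_line hd x e
  have e1 : avg s e g (x + t • e') - avg s e g x - t * avg s e d x =
      s⁻¹ * ∫ τ in (0:ℝ)..s, (g (x + t • e' + τ • e) - g (x + τ • e) - t * d (x + τ • e)) := by
    have i1 : IntervalIntegrable (fun τ : ℝ => g (x + t • e' + τ • e) - g (x + τ • e))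
        MeasureTheory.volume 0 s := (hc1.sub hc2).intervalIntegrable _ _
    have i2 : IntervalIntegrable (fun τ : ℝ => t * d (x + τ • e))
        MeasureTheory.volume 0 s := (continuous_const.mul hc3).intervalIntegrable _ _
    unfold avg
    rw [intervalIntegral.integral_sub i1 i2,
      intervalIntegral.integral_sub (hc1.intervalIntegrable _ _) (hc2.intervalIntegrable _ _),
      intervalIntegral.integral_const_mul]
    ring
  rw [e1]
  refine avg_bound hs fun τ _ _ => ?_
  have := h (x + τ • e) t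
  rwa [add_right_comm] at this

/-- one dimensional computation -/
theorem oned {φ : ℝ → ℝ} {K : ℝ} (hK : 0 ≤ K) (hφ : ∀ u v, |φ u - φ v| ≤ K * |u - v|)
    {s : ℝ} (hs : 0 < s) (t : ℝ) :
    |s⁻¹ * (∫ τ in (0:ℝ)..s, φ (t + τ)) - s⁻¹ * (∫ τ in (0:ℝ)..s, φ τ) -
      t * ((φ s - φ 0) / s)| ≤ 2 * K / s * t ^ 2 := by
  have hc : Continuous φ := by
    have : LipschitzWith ⟨K, hK⟩ φ := LipschitzWith.of_dist_le_mul fun x y => by
      rw [Real.dist_eq, Real.dist_eq]; exact hφ x y
    exact this.continuous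
  have hi : ∀ a b : ℝ, IntervalIntegrable φ MeasureTheory.volume a b := fun a b =>
    hc.intervalIntegrable a b
  have h1 : (∫ τ in (0:ℝ)..s, φ (t + τ)) = ∫ τ in t..(t + s), φ τ := by
    rw [intervalIntegral.integral_comp_add_left, add_zero]
  have h2 : (∫ τ in t..(t + s), φ τ) - (∫ τ in (0:ℝ)..s, φ τ) =
      (∫ τ in s..(t + s), φ τ) - ∫ τ in (0:ℝ)..t, φ τ := by
    have a1 := intervalIntegral.integral_add_adjacent_intervals (hi 0 t) (hi t (t + s))
    have a2 := intervalIntegral.integral_add_adjacent_intervals (hi 0 s) (hi s (t + s))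
    linarith
  have h3 : (∫ τ in s..(t + s), φ τ) = ∫ τ in (0:ℝ)..t, φ (s + τ) := by
    rw [intervalIntegral.integral_comp_add_left, add_zero, add_comm s t]
  have h4 : (∫ τ in (0:ℝ)..t, φ (s + τ)) - (∫ τ in (0:ℝ)..t, φ τ) - t * (φ s - φ 0) =
      ∫ τ in (0:ℝ)..t, (φ (s + τ) - φ τ - (φ s - φ 0)) := by
    have c1 : Continuous fun τ => φ (s + τ) := hc.comp (continuous_const.add continuous_id)
    have i1 : IntervalIntegrable (fun τ : ℝ => φ (s + τ) - φ τ)
        MeasureTheory.volume 0 t := (c1.sub hc).intervalIntegrable _ _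
    have i2 : IntervalIntegrable (fun _ : ℝ => φ s - φ 0)
        MeasureTheory.volume 0 t := continuous_const.intervalIntegrable _ _
    rw [intervalIntegral.integral_sub i1 i2,
      intervalIntegral.integral_sub (c1.intervalIntegrable _ _) (hi _ _),
      intervalIntegral.integral_const, sub_zero, smul_eq_mul]
  have h5 : ‖∫ τ in (0:ℝ)..t, (φ (s + τ) - φ τ - (φ s - φ 0))‖ ≤ 2 * K * |t| * |t - 0| := by
    refine intervalIntegral.norm_integral_le_of_norm_le_const fun τ hτ => ?_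
    have hτt : |τ| ≤ |t| := by
      rcases le_total 0 t with h | h
      · rw [Set.uIoc_of_le h] at hτ
        rw [abs_of_pos hτ.1, abs_of_nonneg h]; exact hτ.2
      · rw [Set.uIoc_of_ge h] at hτ
        rw [abs_of_nonpos hτ.2, abs_of_nonpos h]; linarith [hτ.1]
    rw [Real.norm_eq_abs]
    have b1 := hφ (s + τ) s
    have b2 := hφ τ 0
    rw [add_sub_cancel_left] at b1
    rw [sub_zero] at b2
    have b3 : |φ (s + τ) - φ τ - (φ s - φ 0)| ≤ |φ (s + τ) - φ s| + |φ τ - φ 0| := by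
      have := abs_sub (φ (s + τ) - φ s) (φ τ - φ 0)
      refine le_trans (le_of_eq ?_) this
      congr 1; ring
    have b4 : K * |τ| ≤ K * |t| := mul_le_mul_of_nonneg_left hτt hK
    linarith
  rw [← h4, Real.norm_eq_abs, sub_zero] at h5
  have e1 : s⁻¹ * (∫ τ in (0:ℝ)..s, φ (t + τ)) - s⁻¹ * (∫ τ in (0:ℝ)..s, φ τ) -
      t * ((φ s - φ 0) / s) = s⁻¹ * ((∫ τ in (0:ℝ)..t, φ (s + τ)) - (∫ τ in (0:ℝ)..t, φ τ)
        - t * (φ s - φ 0)) := by
    rw [h1, ← mul_sub, h2, h3]
    field_simp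
  rw [e1, abs_mul, abs_of_pos (inv_pos.mpr hs)]
  have h6 : 2 * K * |t| * |t| = 2 * K * t ^ 2 := by
    rw [mul_assoc, abs_mul_abs_self]; ring
  rw [h6] at h5
  calc s⁻¹ * |(∫ τ in (0:ℝ)..t, φ (s + τ)) - (∫ τ in (0:ℝ)..t, φ τ) - t * (φ s - φ 0)|
      ≤ s⁻¹ * (2 * K * t ^ 2) := mul_le_mul_of_nonneg_left h5 (inv_pos.mpr hs).le
    _ = 2 * K / s * t ^ 2 := by field_simp

theorem Dir_own {e : E} (he : ‖e‖ = 1) {g : E → ℝ} {K : ℝ} (hK : 0 ≤ K) (hg : RL K g) {s : ℝ}
    (hs : 0 < s) : Dir (2 * K / s) e (avg s e g) (fun x => (g (x + s • e) - g x) / s) := by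
  intro x t
  have h1 : ∀ u v : ℝ, |g (x + u • e) - g (x + v • e)| ≤ K * |u - v| := by
    intro u v
    have := hg (x + u • e) (x + v • e)
    rwa [add_sub_add_left_eq_sub, ← sub_smul, norm_smul, he, mul_one, Real.norm_eq_abs] at this
  have h2 := oned hK h1 hs t
  simp only [zero_smul, add_zero] at h2
  unfold avg
  refine le_trans (le_of_eq ?_) h2
  congr 1
  congr 1
  congr 1
  congr 1
  congr 1
  ext τ
  rw [add_smul, add_assoc]

theorem smooth (D : Dec E) {K ε : ℝ} (hK : 0 ≤ K) {n : ℕ} {g : E → ℝ} (hg : RL K g)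
    (hε : ∀ x, |g x| ≤ ε) (hn : Cyl D n g) (N : ℕ) : ∀ {η : ℝ}, 0 < η →
    ∃ g' : E → ℝ, RL K g' ∧ (∀ x, |g' x| ≤ ε) ∧ Cyl D n g' ∧ (∀ x, |g' x - g x| ≤ η) ∧
      ∃ C : ℝ, 0 ≤ C ∧ ∃ d : ℕ → E → ℝ, ∀ k, k < N → Dir C (D.e k) g' (d k) ∧
        (∀ x, |d k x| ≤ K) ∧ RL C (d k) ∧ Cyl D n (d k) := by
  induction N with
  | zero =>
    intro η hη
    exact ⟨g, hg, hε, hn, fun x => by simp [hη.le], 0, le_rfl, fun _ _ => 0,
      fun k hk => absurd hk (Nat.not_lt_zero k)⟩
  | succ N ih =>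
    intro η hη
    obtain ⟨g1, hg1, hε1, hn1, hcl1, C, hC, d, hd⟩ := ih (half_pos hη)
    set s : ℝ := η / (2 * (K + 1)) with hs
    have hspos : 0 < s := by positivity
    have hKs : K * s ≤ η / 2 := by
      rw [hs]
      have h1 : K * (η / (2 * (K + 1))) = (K / (K + 1)) * (η / 2) := by field_simp
      rw [h1]
      have h2 : K / (K + 1) ≤ 1 := by
        rw [div_le_one (by positivity)]; linarith
      have h3 : 0 ≤ η / 2 := by positivity
      nlinarith
    have hKsn : 0 ≤ 2 * K / s := by positivity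
    refine ⟨avg s (D.e N) g1, avg_RL hspos hK hg1, avg_abs hspos hε1, avg_cyl D hn1, ?_,
      C + 2 * K / s, by positivity,
      fun k => if k = N then (fun x => (g1 (x + s • D.e N) - g1 x) / s)
        else avg s (D.e N) (d k), ?_⟩
    · intro x
      have h1 := avg_close hspos (D.norm_e N) hK hg1 x
      have h2 := hcl1 x
      have h3 := abs_add_le (avg s (D.e N) g1 x - g1 x) (g1 x - g x)
      rw [sub_add_sub_cancel] at h3
      linarith
    · intro k hk
      by_cases hkN : k = N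
      · subst hkN
        simp only [if_true]
        refine ⟨(Dir_own (D.norm_e k) hK hg1 hspos).mono (by linarith), ?_, ?_, ?_⟩
        · intro x
          rw [abs_div, abs_of_pos hspos, div_le_iff₀ hspos]
          have := hg1 (x + s • D.e k) x
          rwa [add_sub_cancel_left, norm_smul, D.norm_e, mul_one, Real.norm_eq_abs,
            abs_of_pos hspos] at this
        · intro x y
          have h1 := hg1 (x + s • D.e k) (y + s • D.e k)
          rw [add_sub_add_right_eq_sub] at h1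
          have h2 := hg1 x y
          have h3 : |(g1 (x + s • D.e k) - g1 x) / s - (g1 (y + s • D.e k) - g1 y) / s| =
              |(g1 (x + s • D.e k) - g1 (y + s • D.e k)) - (g1 x - g1 y)| / s := by
            rw [← sub_div, abs_div, abs_of_pos hspos]
            congr 2; ring
          rw [h3, div_le_iff₀ hspos]
          have h4 := abs_sub (g1 (x + s • D.e k) - g1 (y + s • D.e k)) (g1 x - g1 y)
          have h5 : (C + 2 * K / s) * ‖x - y‖ * s = C * ‖x - y‖ * s + 2 * K * ‖x - y‖ := by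
            field_simp
          rw [h5]
          have h6 : 0 ≤ C * ‖x - y‖ * s := by positivity
          linarith
        · intro x
          simp only
          rw [← hn1 (D.P n x + s • D.e k), ← hn1 (x + s • D.e k), map_add, map_add,
            D.P_high n n x le_rfl, hn1 x]
      · simp only [if_neg hkN]
        have hk' : k < N := by omega
        obtain ⟨h1, h2, h3, h4⟩ := hd k hk'
        exact ⟨(Dir_avg h1 (RLcont hK hg1) (RLcont hC h3) hspos).mono (by linarith),
          avg_abs hspos h2, (avg_RL hspos hC h3).mono (by linarith), avg_cyl D h4⟩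

end Pool.Agent.X319.L2
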