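import Pool.Agent.X319.L2.D

set_option autoImplicit false

namespace Pool.Agent.X319.L2

open scoped BigOperators
open Pool.Agent.TH326.L1 (RL M Phi WUC Phi_smul_right Phi_zero_left Phi_add_left Phi_add_right
  Phi_smul_left M_add M_eq M_congr M_smul M_sub M_neg M_sum M_close smallsup Phi_single)

variable {E : Type} [NormedAddCommGroup E] [NormedSpace ℝ E]

/-- supply of small smooth functions -/
def Supply (D : Dec E) (μ : ℕ → E →₀ ℝ) (N : ℕ) (c : ℝ) : Prop :=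
  ∀ ε : ℝ, 0 < ε → ∃ p : ℕ, ∀ j, p ≤ j → ∃ (g : E → ℝ) (n : ℕ) (C : ℝ) (d : ℕ → E → ℝ),
    RL 2 g ∧ (∀ x, |g x| ≤ ε) ∧ Cyl D n g ∧ c ≤ M (μ j) g ∧ 0 ≤ C ∧
      ∀ k, k < N → Dir C (D.e k) g (d k) ∧ (∀ x, |d k x| ≤ 2) ∧ RL C (d k) ∧ Cyl D n (d k)

theorem supply (D : Dec E) {μ : ℕ → E →₀ ℝ} {b : ℝ} (hW : WUC μ b) {a : ℝ} (ha : 0 < a)
    {f : ℕ → E → ℝ} (hf : ∀ j, RL 1 (f j)) (hf0 : ∀ j, f j 0 = 0) (hfM : ∀ j, a ≤ M (μ j) (f j))
    (N : ℕ) : Supply D μ N (a / 4) := by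
  intro ε hε
  obtain ⟨p, hp⟩ := smallsup hW ha hf hf0 hfM hε
  refine ⟨p, fun j hj => ?_⟩
  obtain ⟨g, hg, hgε, hgM⟩ := hp j hj
  set W : ℝ := ∑ x ∈ (μ j).support, |μ j x| with hWdef
  have hW0 : 0 ≤ W := Finset.sum_nonneg fun _ _ => abs_nonneg _
  set η : ℝ := a / (16 * (W + 1)) with hη
  have hηpos : 0 < η := by positivity
  have hWη : W * (2 * η) ≤ a / 8 := by
    have h1 : W * (2 * η) = (W / (W + 1)) * (a / 8) := by
      rw [hη]; field_simp; ring
    rw [h1]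
    have h2 : W / (W + 1) ≤ 1 := by rw [div_le_one (by positivity)]; linarith
    have h3 : 0 ≤ a / 8 := by positivity
    nlinarith
  have hev : ∀ᶠ n in Filter.atTop, ∀ x ∈ (μ j).support, |g (D.P n x) - g x| ≤ η := by
    rw [Filter.eventually_all_finset]
    intro x _
    have h1 : Filter.Tendsto (fun n => g (D.P n x)) Filter.atTop (nhds (g x)) :=
      ((RLcont (by norm_num) hg).tendsto x).comp (D.tend x)
    have h2 := Metric.tendsto_atTop.mp h1 η hηpos
    obtain ⟨n0, hn0⟩ := h2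
    exact Filter.eventually_atTop.mpr ⟨n0, fun n hn => (by
      have := hn0 n hn; rw [Real.dist_eq] at this; exact this.le)⟩
  obtain ⟨n, hn⟩ := hev.exists
  set g1 : E → ℝ := fun x => g (D.P n x) with hg1
  have hg1L : RL 2 g1 := by
    intro x y
    simp only [hg1]
    refine (hg _ _).trans ?_
    rw [← map_sub]
    exact mul_le_mul_of_nonneg_left (norm_P_le D n _) (by norm_num)
  have hg1c : Cyl D n g1 := by
    intro x
    simp only [hg1]
    rw [D.P_low n n x le_rfl]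
  have hM1 := M_close (μ j) (g := g1) (h := g) (η := η)
    (by simp only [hg1]; rw [map_zero, sub_self, abs_zero]; exact hηpos.le) hn
  obtain ⟨g2, hg2, hg2ε, hg2c, hcl, C, hC, d, hd⟩ :=
    smooth D (by norm_num : (0:ℝ) ≤ 2) hg1L (fun x => hgε _) hg1c N hηpos
  have hM2 := M_close (μ j) (g := g2) (h := g1) (η := η) (hcl 0) (fun x _ => hcl x)
  rw [abs_le] at hM1 hM2
  refine ⟨g2, n, C, d, hg2, hg2ε, hg2c, ?_, hC, hd⟩
  linarith [hM1.1, hM2.1]

/-- the soft cutoff -/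
noncomputable def psi (N : ℕ) (Λ : ℝ) (T : ℕ → E → ℝ) : E → ℝ :=
  fun x => max (1 - (∑ k ∈ Finset.range N, (T k x) ^ 2) / Λ ^ 2) 0

omit [NormedSpace ℝ E] in
theorem psi_nonneg (N : ℕ) (Λ : ℝ) (T : ℕ → E → ℝ) (x : E) : 0 ≤ psi N Λ T x := le_max_right _ _

omit [NormedSpace ℝ E] in
theorem psi_le_one (N : ℕ) (Λ : ℝ) (T : ℕ → E → ℝ) (x : E) : psi N Λ T x ≤ 1 := by
  unfold psi
  refine max_le ?_ zero_le_one
  have : 0 ≤ (∑ k ∈ Finset.range N, (T k x) ^ 2) / Λ ^ 2 :=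
    div_nonneg (Finset.sum_nonneg fun _ _ => sq_nonneg _) (sq_nonneg _)
  linarith

omit [NormedSpace ℝ E] in
theorem one_sub_psi_le (N : ℕ) (Λ : ℝ) (T : ℕ → E → ℝ) (x : E) :
    1 - psi N Λ T x ≤ (∑ k ∈ Finset.range N, (T k x) ^ 2) / Λ ^ 2 := by
  unfold psi
  have := le_max_left (1 - (∑ k ∈ Finset.range N, (T k x) ^ 2) / Λ ^ 2) 0
  linarith

omit [NormedSpace ℝ E] in
theorem psi_ne_zero {N : ℕ} {Λ : ℝ} (hΛ : 0 < Λ) {T : ℕ → E → ℝ} {x : E} (h : psi N Λ T x ≠ 0)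
    {k : ℕ} (hk : k < N) : |T k x| ≤ Λ := by
  have h1 : 0 < 1 - (∑ k ∈ Finset.range N, (T k x) ^ 2) / Λ ^ 2 := by
    by_contra hle
    apply h
    unfold psi
    rw [max_eq_right (not_lt.mp hle)]
  have h2 : (∑ k ∈ Finset.range N, (T k x) ^ 2) < Λ ^ 2 := by
    have h3 : (∑ k ∈ Finset.range N, (T k x) ^ 2) / Λ ^ 2 < 1 := by linarith
    rwa [div_lt_one (by positivity)] at h3
  have h3 : (T k x) ^ 2 ≤ ∑ k ∈ Finset.range N, (T k x) ^ 2 :=
    Finset.single_le_sum (f := fun k => (T k x) ^ 2) (fun _ _ => sq_nonneg _)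
      (Finset.mem_range.mpr hk)
  exact abs_le_of_sq_le_sq (by linarith) hΛ.le

omit [NormedSpace ℝ E] in
theorem RL_psi {N : ℕ} {Λ C B : ℝ} (hC : 0 ≤ C) (hB : 0 ≤ B) {T : ℕ → E → ℝ}
    (hT : ∀ k, k < N → RL C (T k)) (hTB : ∀ k, k < N → ∀ x, |T k x| ≤ B) :
    RL (N * (2 * C * B) / Λ ^ 2) (psi N Λ T) := by
  have h1 : RL (N * (2 * C * B) / Λ ^ 2)
      (fun x : E => 1 - (∑ k ∈ Finset.range N, (T k x) ^ 2) / Λ ^ 2) := by
    intro x y
    have h2 : ∀ k ∈ Finset.range N, |(T k x) ^ 2 - (T k y) ^ 2| ≤ 2 * C * B * ‖x - y‖ := by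
      intro k hk
      have hk' := Finset.mem_range.mp hk
      have := (hT k hk').mul (hT k hk') (hTB k hk') (hTB k hk') x y
      simp only [Pi.mul_apply] at this
      rw [sq, sq]
      refine this.trans (le_of_eq ?_)
      ring
    have h3 : |∑ k ∈ Finset.range N, (T k x) ^ 2 - ∑ k ∈ Finset.range N, (T k y) ^ 2| ≤
        N * (2 * C * B) * ‖x - y‖ := by
      rw [← Finset.sum_sub_distrib]
      refine (Finset.abs_sum_le_sum_abs _ _).trans ((Finset.sum_le_sum h2).trans ?_)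
      rw [Finset.sum_const, Finset.card_range, nsmul_eq_mul]
      exact le_of_eq (by ring)
    have h4 : (1 - (∑ k ∈ Finset.range N, (T k x) ^ 2) / Λ ^ 2) -
        (1 - (∑ k ∈ Finset.range N, (T k y) ^ 2) / Λ ^ 2) =
        -((∑ k ∈ Finset.range N, (T k x) ^ 2 - ∑ k ∈ Finset.range N, (T k y) ^ 2) / Λ ^ 2) := by
      ring
    rw [h4, abs_neg, abs_div, abs_of_nonneg (sq_nonneg Λ)]
    refine (div_le_div_of_nonneg_right h3 (sq_nonneg Λ)).trans (le_of_eq ?_)
    ring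
  exact h1.max (RL.const (by positivity) 0)

theorem psi_cyl (D : Dec E) {N n : ℕ} {Λ : ℝ} {T : ℕ → E → ℝ} (hT : ∀ k, k < N → Cyl D n (T k)) :
    Cyl D n (psi N Λ T) := by
  intro x
  unfold psi
  congr 3
  refine Finset.sum_congr rfl fun k hk => ?_
  rw [hT k (Finset.mem_range.mp hk) x]

/-- the state of the construction after `i` steps -/
def St (D : Dec E) (μ : ℕ → E →₀ ℝ) (N p : ℕ) (Λ η c : ℝ) (i : ℕ) : Prop :=
  ∃ (Ω : Type) (_ : Fintype Ω) (_ : Nonempty Ω) (f : Ω → E → ℝ) (T : Ω → ℕ → E → ℝ)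
    (θ : Ω → ℕ →₀ ℝ) (n q : ℕ) (C : ℝ), 0 ≤ C ∧
    (∀ ω, Cyl D n (f ω)) ∧ (∀ ω k, k < N → Cyl D n (T ω k)) ∧
    (∀ ω k, k < N → ∀ (x : E) (t : ℝ),
      |f ω (x + t • D.e k) - f ω x - t * T ω k x| ≤ i * η * |t| + C * t ^ 2) ∧
    (∀ ω k, k < N → ∀ x, |T ω k x| ≤ Λ + 2) ∧
    (∀ ω k, k < N → RL C (T ω k)) ∧
    (∀ ω, RL (i * 3) (f ω)) ∧
    (∀ x k, k < N → ∑ ω, (T ω k x) ^ 2 ≤ Fintype.card Ω * (i * 4)) ∧
    (∀ ω j, |θ ω j| ≤ 1) ∧ (∀ ω j, j < p → θ ω j = 0) ∧ (∀ ω j, q ≤ j → θ ω j = 0) ∧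
    Fintype.card Ω * (i * (c / 2)) ≤ ∑ ω, Phi μ (θ ω) (f ω)

theorem St_zero (D : Dec E) (μ : ℕ → E →₀ ℝ) (N p : ℕ) {Λ η c : ℝ} (hΛ : 0 < Λ) :
    St D μ N p Λ η c 0 := by
  refine ⟨Unit, inferInstance, inferInstance, fun _ _ => 0, fun _ _ _ => 0, fun _ => 0, 0, 0, 0,
    le_rfl, fun _ _ => rfl, fun _ _ _ _ => rfl, fun _ _ _ _ _ => by simp, fun _ _ _ _ => ?_,
    fun _ _ _ => RL.const le_rfl 0, fun _ => RL.const (by simp) 0, fun _ _ _ => by simp,
    by simp, by simp, by simp, ?_⟩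
  · rw [abs_zero]; positivity
  · simp [Phi_zero_left]

/-- sign attached to a boolean -/
def sg (b : Bool) : ℝ := if b then 1 else -1

theorem sg_abs (b : Bool) : |sg b| = 1 := by cases b <;> simp [sg]

theorem St_succ (D : Dec E) {μ : ℕ → E →₀ ℝ} {b : ℝ} (hb : 0 ≤ b) (hW : WUC μ b) (N p : ℕ)
    {Λ η c κ : ℝ} (hΛ : 0 < Λ) (hη : 0 < η) (hc : 0 < c) (hsup : Supply D μ N c)
    (hκ0 : 0 ≤ κ) (hκ : 2 * b * κ ≤ c / 4) (i : ℕ) (hi : N * (i * 4) ≤ κ * Λ ^ 2)
    (hSt : St D μ N p Λ η c i) : St D μ N p Λ η c (i + 1) := by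
  classical
  obtain ⟨Ω, _, _, f, T, θ, n, q, C, hC, hfc, hTc, hfT, hTB, hTL, hfL, hT2, hθ1, hθp, hθq,
    hPhi⟩ := hSt
  set B : ℝ := Λ + 2 with hBdef
  have hB : 0 ≤ B := by positivity
  set Cψ : ℝ := N * (2 * C * B) / Λ ^ 2 with hCψdef
  have hCψ : 0 ≤ Cψ := by positivity
  set ψ : Ω → E → ℝ := fun ω => psi N Λ (T ω) with hψdef
  have hψ0 : ∀ ω x, 0 ≤ ψ ω x := fun ω x => psi_nonneg _ _ _ _
  have hψ1 : ∀ ω x, ψ ω x ≤ 1 := fun ω x => psi_le_one _ _ _ _
  have hψa : ∀ ω x, |ψ ω x| ≤ 1 := fun ω x => by rw [abs_of_nonneg (hψ0 ω x)]; exact hψ1 ω x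
  have hψL : ∀ ω, RL Cψ (ψ ω) := fun ω => RL_psi hC hB (hTL ω) (hTB ω)
  have hψc : ∀ ω, Cyl D n (ψ ω) := fun ω => psi_cyl D (hTc ω)
  -- choice of ε
  set η' : ℝ := min η (min 1 (c / (4 * (b + 1)))) with hη'def
  have hη'pos : 0 < η' := by
    refine lt_min hη (lt_min one_pos (by positivity))
  have hη'1 : η' ≤ η := min_le_left _ _
  have hη'2 : η' ≤ 1 := (min_le_right _ _).trans (min_le_left _ _)
  have hη'3 : η' ≤ c / (4 * (b + 1)) := (min_le_right _ _).trans (min_le_right _ _)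
  set ε : ℝ := η' / (Cψ + 1) with hεdef
  have hε : 0 < ε := by positivity
  have hεC : ε * Cψ ≤ η' := by
    have h1 : ε * Cψ = (Cψ / (Cψ + 1)) * η' := by rw [hεdef]; field_simp
    rw [h1]
    have h2 : Cψ / (Cψ + 1) ≤ 1 := by rw [div_le_one (by positivity)]; linarith
    nlinarith
  have hεC0 : 0 ≤ ε * Cψ := by positivity
  obtain ⟨pε, hpε⟩ := hsup ε hε
  set j : ℕ := max p (max q pε) with hj
  have hjp : p ≤ j := le_max_left _ _
  have hjq : q ≤ j := (le_max_left _ _).trans (le_max_right _ _)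
  have hjε : pε ≤ j := (le_max_right _ _).trans (le_max_right _ _)
  obtain ⟨g, ng, Cg, d, hg, hgε, hgc, hgM, hCg, hd⟩ := hpε j hjε
  -- new data
  have hgψL : ∀ ω, RL 3 (g * ψ ω) := fun ω =>
    (hg.mul (hψL ω) hgε (hψa ω)).mono (by linarith)
  have habs : ∀ s : ℝ, |s| = 1 → ∀ ω i, |(θ ω + s • Finsupp.single j (1:ℝ)) i| ≤ 1 := by
    intro σ hσ ω i
    simp only [Finsupp.add_apply, Finsupp.smul_apply, smul_eq_mul, Finsupp.single_apply]
    by_cases hij : j = i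
    · subst hij
      simp [hθq ω j hjq, hσ]
    · simp [hij, hθ1 ω i]
  refine ⟨Ω × Bool, inferInstance, inferInstance, fun w => f w.1 + sg w.2 • (g * ψ w.1),
    fun w k => T w.1 k + sg w.2 • (d k * ψ w.1),
    fun w => θ w.1 + sg w.2 • Finsupp.single j (1:ℝ), max n ng, j + 1,
    C + Cg + 2 * Cψ, by positivity, ?_, ?_, ?_, ?_, ?_, ?_, ?_, ?_, ?_, ?_, ?_⟩
  · rintro ⟨ω, s⟩
    refine ((hfc ω).mono (le_max_left _ _)).add (Cyl.smul _ ?_)
    intro x
    simp only [Pi.mul_apply]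
    rw [(hgc.mono (le_max_right n ng)) x, ((hψc ω).mono (le_max_left n ng)) x]
  · rintro ⟨ω, s⟩ k hk
    refine ((hTc ω k hk).mono (le_max_left _ _)).add (Cyl.smul _ ?_)
    intro x
    simp only [Pi.mul_apply]
    rw [((hd k hk).2.2.2.mono (le_max_right n ng)) x, ((hψc ω).mono (le_max_left n ng)) x]
  · rintro ⟨ω, s⟩ k hk x t
    simp only [Pi.add_apply, Pi.smul_apply, Pi.mul_apply, smul_eq_mul]
    have h1 := hfT ω k hk x t
    have h2 := (hd k hk).1 x t
    have h3 : |ψ ω (x + t • D.e k) - ψ ω x| ≤ Cψ * |t| := by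
      have := hψL ω (x + t • D.e k) x
      rwa [add_sub_cancel_left, norm_smul, D.norm_e, mul_one, Real.norm_eq_abs] at this
    have e1 : f ω (x + t • D.e k) + sg s * (g (x + t • D.e k) * ψ ω (x + t • D.e k)) -
        (f ω x + sg s * (g x * ψ ω x)) - t * (T ω k x + sg s * (d k x * ψ ω x)) =
        (f ω (x + t • D.e k) - f ω x - t * T ω k x) +
        (sg s * (ψ ω x * (g (x + t • D.e k) - g x - t * d k x)) +
         sg s * (g (x + t • D.e k) * (ψ ω (x + t • D.e k) - ψ ω x))) := by ring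
    rw [e1]
    have h4 : |sg s * (ψ ω x * (g (x + t • D.e k) - g x - t * d k x))| ≤ Cg * t ^ 2 := by
      rw [abs_mul, sg_abs, one_mul, abs_mul]
      calc |ψ ω x| * |g (x + t • D.e k) - g x - t * d k x|
          ≤ 1 * (Cg * t ^ 2) := mul_le_mul (hψa ω x) h2 (abs_nonneg _) zero_le_one
        _ = Cg * t ^ 2 := one_mul _
    have h5 : |sg s * (g (x + t • D.e k) * (ψ ω (x + t • D.e k) - ψ ω x))| ≤ η * |t| := by
      rw [abs_mul, sg_abs, one_mul, abs_mul]
      calc |g (x + t • D.e k)| * |ψ ω (x + t • D.e k) - ψ ω x|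
          ≤ ε * (Cψ * |t|) := mul_le_mul (hgε _) h3 (abs_nonneg _) hε.le
        _ = ε * Cψ * |t| := by ring
        _ ≤ η * |t| := mul_le_mul_of_nonneg_right (hεC.trans hη'1) (abs_nonneg _)
    have h6 := abs_add_le (f ω (x + t • D.e k) - f ω x - t * T ω k x)
      (sg s * (ψ ω x * (g (x + t • D.e k) - g x - t * d k x)) +
         sg s * (g (x + t • D.e k) * (ψ ω (x + t • D.e k) - ψ ω x)))
    have h7 := abs_add_le (sg s * (ψ ω x * (g (x + t • D.e k) - g x - t * d k x)))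
         (sg s * (g (x + t • D.e k) * (ψ ω (x + t • D.e k) - ψ ω x)))
    have h8 : 0 ≤ 2 * Cψ * t ^ 2 := by positivity
    push_cast
    nlinarith
  · rintro ⟨ω, s⟩ k hk x
    simp only [Pi.add_apply, Pi.smul_apply, Pi.mul_apply, smul_eq_mul]
    by_cases hz : ψ ω x = 0
    · rw [hz, mul_zero, mul_zero, add_zero]; exact hTB ω k hk x
    · have h1 : |T ω k x| ≤ Λ := psi_ne_zero hΛ hz hk
      have h2 : |sg s * (d k x * ψ ω x)| ≤ 2 := by
        rw [abs_mul, sg_abs, one_mul, abs_mul]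
        calc |d k x| * |ψ ω x| ≤ 2 * 1 :=
              mul_le_mul ((hd k hk).2.1 x) (hψa ω x) (abs_nonneg _) (by norm_num)
          _ = 2 := by norm_num
      have h3 := abs_add_le (T ω k x) (sg s * (d k x * ψ ω x))
      linarith
  · rintro ⟨ω, s⟩ k hk
    have h1 := ((hd k hk).2.2.1.mul (hψL ω) (hd k hk).2.1 (hψa ω)).smul (sg s)
    rw [sg_abs, one_mul] at h1
    exact ((hTL ω k hk).add h1).mono (by linarith)
  · rintro ⟨ω, s⟩
    have h1 := (hgψL ω).smul (sg s)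
    rw [sg_abs, one_mul] at h1
    refine ((hfL ω).add h1).mono ?_
    push_cast
    linarith
  · intro x k hk
    rw [Fintype.sum_prod_type]
    have h1 : ∀ ω : Ω, ∑ s : Bool, ((T ω k + sg s • (d k * ψ ω)) x) ^ 2 ≤
        2 * (T ω k x) ^ 2 + 8 := by
      intro ω
      rw [Fintype.sum_bool]
      simp only [Pi.add_apply, Pi.smul_apply, Pi.mul_apply, smul_eq_mul, sg, if_true]
      simp only [Bool.false_eq_true, if_false]
      have h2 : (d k x * ψ ω x) ^ 2 ≤ 4 := by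
        rw [← sq_abs, abs_mul]
        have h3 : |d k x| * |ψ ω x| ≤ 2 * 1 :=
          mul_le_mul ((hd k hk).2.1 x) (hψa ω x) (abs_nonneg _) (by norm_num)
        have h4 : 0 ≤ |d k x| * |ψ ω x| := by positivity
        nlinarith
      nlinarith
    refine (Finset.sum_le_sum fun ω _ => h1 ω).trans ?_
    rw [Finset.sum_add_distrib, ← Finset.mul_sum, Finset.sum_const, Finset.card_univ,
      nsmul_eq_mul, Fintype.card_prod, Fintype.card_bool]
    have := hT2 x k hk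
    push_cast
    linarith
  · rintro ⟨ω, s⟩ i
    exact habs _ (sg_abs s) ω i
  · rintro ⟨ω, s⟩ i hi
    simp only [Finsupp.add_apply, Finsupp.smul_apply, smul_eq_mul, Finsupp.single_apply]
    rw [hθp ω i hi, if_neg (by omega)]
    simp
  · rintro ⟨ω, s⟩ i hi
    simp only [Finsupp.add_apply, Finsupp.smul_apply, smul_eq_mul, Finsupp.single_apply]
    rw [hθq ω i (by omega), if_neg (by omega)]
    simp
  · rw [Fintype.sum_prod_type]
    have h1 : ∀ ω : Ω, ∑ s : Bool, Phi μ (θ ω + sg s • Finsupp.single j (1:ℝ))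
        (f ω + sg s • (g * ψ ω)) = 2 * Phi μ (θ ω) (f ω) + 2 * M (μ j) (g * ψ ω) := by
      intro ω
      rw [Fintype.sum_bool]
      simp only [Phi_add_left, Phi_smul_left, Phi_add_right, Phi_smul_right, Phi_single]
      simp only [sg, if_true, Bool.false_eq_true, if_false]
      ring
    simp only [h1]
    rw [Finset.sum_add_distrib, ← Finset.mul_sum, ← Finset.mul_sum]
    -- the average pairing
    set φ : E → ℝ := fun x => ∑ ω : Ω, (1 - ψ ω x) with hφ
    have hcard : (0:ℝ) ≤ Fintype.card Ω := Nat.cast_nonneg _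
    have hφa : ∀ x, |φ x| ≤ Fintype.card Ω * κ := by
      intro x
      have h2 : 0 ≤ φ x := Finset.sum_nonneg fun ω _ => by linarith [hψ1 ω x]
      rw [abs_of_nonneg h2]
      have h3 : φ x ≤ ∑ ω : Ω, (∑ k ∈ Finset.range N, (T ω k x) ^ 2) / Λ ^ 2 :=
        Finset.sum_le_sum fun ω _ => one_sub_psi_le N Λ (T ω) x
      refine h3.trans ?_
      rw [← Finset.sum_div, Finset.sum_comm, div_le_iff₀ (by positivity)]
      have h4 : ∑ k ∈ Finset.range N, ∑ ω : Ω, (T ω k x) ^ 2 ≤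
          ∑ k ∈ Finset.range N, (Fintype.card Ω * (i * 4) : ℝ) :=
        Finset.sum_le_sum fun k hk => hT2 x k (Finset.mem_range.mp hk)
      rw [Finset.sum_const, Finset.card_range, nsmul_eq_mul] at h4
      refine h4.trans ?_
      have h5 := mul_le_mul_of_nonneg_left hi hcard
      linarith
    have hφL : RL (Fintype.card Ω * Cψ) φ := by
      intro x y
      simp only [hφ]
      rw [← Finset.sum_sub_distrib]
      refine (Finset.abs_sum_le_sum_abs _ _).trans ?_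
      have h2 : ∀ ω ∈ (Finset.univ : Finset Ω), |1 - ψ ω x - (1 - ψ ω y)| ≤ Cψ * ‖x - y‖ := by
        intro ω _
        have := hψL ω y x
        rw [norm_sub_rev] at this
        refine le_trans (le_of_eq ?_) this
        congr 1; ring
      refine (Finset.sum_le_sum h2).trans ?_
      rw [Finset.sum_const, Finset.card_univ, nsmul_eq_mul]
      exact le_of_eq (by ring)
    have hgφ : |M (μ j) (g * φ)| ≤ Fintype.card Ω * (c / 2) := by
      have h2 := hg.mul hφL hgε hφa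
      have h3 := hW.single j (by positivity) h2
      refine h3.trans ?_
      have h4 : b * (ε * Cψ) ≤ c / 4 := by
        have h5 : b * (ε * Cψ) ≤ b * (c / (4 * (b + 1))) :=
          mul_le_mul_of_nonneg_left (hεC.trans hη'3) hb
        have h6 : b * (c / (4 * (b + 1))) = (b / (b + 1)) * (c / 4) := by field_simp
        have h7 : b / (b + 1) ≤ 1 := by rw [div_le_one (by positivity)]; linarith
        rw [h6] at h5
        nlinarith
      have h8 : b * (2 * (Fintype.card Ω * κ) + ε * (Fintype.card Ω * Cψ)) =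
          Fintype.card Ω * (2 * b * κ + b * (ε * Cψ)) := by ring
      rw [h8]
      exact mul_le_mul_of_nonneg_left (by linarith) hcard
    have hsumM : ∑ ω : Ω, M (μ j) (g * ψ ω) =
        Fintype.card Ω * M (μ j) g - M (μ j) (g * φ) := by
      rw [← M_sum]
      have h2 : ∑ ω : Ω, g * ψ ω = (Fintype.card Ω : ℝ) • g - g * φ := by
        ext x
        simp only [Finset.sum_apply, Pi.mul_apply, Pi.sub_apply, Pi.smul_apply, smul_eq_mul, hφ]
        rw [← Finset.mul_sum, Finset.sum_sub_distrib, Finset.sum_const, Finset.card_univ,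
          nsmul_eq_mul, mul_one]
        ring
      rw [h2, M_sub, M_smul]
    rw [hsumM, Fintype.card_prod, Fintype.card_bool]
    have h9 := (abs_le.mp hgφ).2
    have h10 := mul_le_mul_of_nonneg_left hgM hcard
    push_cast
    linarith

theorem subdiv {F : ℝ → ℝ} {A C : ℝ} (h : ∀ u t : ℝ, |F (u + t) - F u| ≤ A * |t| + C * t ^ 2)
    (t : ℝ) : |F t - F 0| ≤ A * |t| := by
  have h1 : ∀ n : ℕ, 0 < n → |F t - F 0| ≤ A * |t| + C * t ^ 2 / n := by
    intro n hn
    have hn' : (0:ℝ) < n := by exact_mod_cast hn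
    have h2 : F t - F 0 = ∑ i ∈ Finset.range n, (F (((i + 1 : ℕ) : ℝ) * (t / n)) -
        F ((i : ℝ) * (t / n))) := by
      rw [Finset.sum_range_sub (fun i : ℕ => F ((i : ℝ) * (t / n)))]
      congr 2
      · field_simp
      · simp
    rw [h2]
    refine (Finset.abs_sum_le_sum_abs _ _).trans ?_
    have h3 : ∀ i ∈ Finset.range n, |F (((i + 1 : ℕ) : ℝ) * (t / n)) - F ((i : ℝ) * (t / n))| ≤
        A * |t / n| + C * (t / n) ^ 2 := by
      intro i _
      have := h ((i : ℝ) * (t / n)) (t / n)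
      have e : ((i + 1 : ℕ) : ℝ) * (t / n) = (i : ℝ) * (t / n) + t / n := by push_cast; ring
      rw [e]
      exact this
    refine (Finset.sum_le_sum h3).trans (le_of_eq ?_)
    rw [Finset.sum_const, Finset.card_range, nsmul_eq_mul, abs_div, abs_of_pos hn']
    field_simp
  have h4 : Filter.Tendsto (fun n : ℕ => A * |t| + C * t ^ 2 / n) Filter.atTop
      (nhds (A * |t| + 0)) :=
    tendsto_const_nhds.add (tendsto_const_div_atTop_nhds_zero_nat _)
  rw [add_zero] at h4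
  exact ge_of_tendsto h4 (Filter.eventually_atTop.mpr ⟨1, fun n hn => h1 n hn⟩)

theorem LipN_of_dir (D : Dec E) {N : ℕ} {A B : ℝ} {f : E → ℝ} (hA : 0 ≤ A)
    (h : ∀ k, k < N → ∀ (x : E) (t : ℝ), |f (x + t • D.e k) - f x| ≤ A * |t|)
    (hB : RL B f) : LipN D N (N * A) B f := by
  intro x y
  have key : ∀ m, m ≤ N → |f (y + D.P m (x - y)) - f y| ≤ m * A * ‖D.P N (x - y)‖ := by
    intro m
    induction m with
    | zero => intro _; rw [D.P_zero]; simp
    | succ m ih =>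
      intro hm
      have h1 := ih (by omega)
      have h2 := h m (by omega) (y + D.P m (x - y)) (D.c m (x - y))
      have h0 := D.c_le m N (x - y) (by omega)
      rw [D.P_succ, ← add_assoc]
      have h3 := abs_add_le (f (y + D.P m (x - y) + D.c m (x - y) • D.e m) -
        f (y + D.P m (x - y))) (f (y + D.P m (x - y)) - f y)
      rw [sub_add_sub_cancel] at h3
      have h4 := mul_le_mul_of_nonneg_left h0 hA
      push_cast
      linarith
  have h1 := key N le_rfl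
  have h2 := hB x (y + D.P N (x - y))
  rw [← sub_sub] at h2
  have h3 := abs_add_le (f x - f (y + D.P N (x - y))) (f (y + D.P N (x - y)) - f y)
  rw [sub_add_sub_cancel] at h3
  linarith

/-- The main theorem in abstract form. -/
theorem main (D : Dec E) {μ : ℕ → E →₀ ℝ} {b : ℝ} (hb : 0 ≤ b) (hW : WUC μ b) {a : ℝ}
    (ha : 0 < a) {f : ℕ → E → ℝ} (hf : ∀ j, RL 1 (f j)) (hf0 : ∀ j, f j 0 = 0)
    (hfM : ∀ j, a ≤ M (μ j) (f j)) : False := by
  set c : ℝ := a / 4 with hcdef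
  have hc : 0 < c := by positivity
  obtain ⟨N, p, htail⟩ := tail D hW (show 0 < c / 12 by positivity)
  have hsup : Supply D μ N c := supply D hW ha hf hf0 hfM N
  set κ : ℝ := c / (8 * (b + 1)) with hκdef
  have hκpos : 0 < κ := by positivity
  have hκ : 2 * b * κ ≤ c / 4 := by
    have h1 : 2 * b * κ = (b / (b + 1)) * (c / 4) := by rw [hκdef]; field_simp; ring
    have h2 : b / (b + 1) ≤ 1 := by rw [div_le_one (by positivity)]; linarith
    rw [h1]
    nlinarith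
  set L0 : ℝ := 4 * N / κ + 1 with hL0
  have hL0a : 0 ≤ 4 * N / κ := by positivity
  have hL0b : 4 * N ≤ κ * L0 ^ 2 := by
    have h1 : 4 * N = κ * (4 * N / κ) := by field_simp
    rw [h1]
    refine mul_le_mul_of_nonneg_left ?_ hκpos.le
    nlinarith
  obtain ⟨r, hr⟩ := exists_nat_gt (4 * b * (N * (L0 + 3)) / c + 1)
  have hr0 : 0 ≤ 4 * b * (N * (L0 + 3)) / c := by positivity
  have hr1 : (1:ℝ) < r := by linarith
  set m : ℕ := r ^ 2 with hm
  have hmr : (m : ℝ) = (r:ℝ) ^ 2 := by rw [hm]; push_cast; ring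
  set Λ : ℝ := r * L0 with hΛdef
  have hΛ : 0 < Λ := by positivity
  set η : ℝ := 1 / (m + 1) with hηdef
  have hη : 0 < η := by positivity
  have hSt : ∀ i, i ≤ m → St D μ N p Λ η c i := by
    intro i
    induction i with
    | zero => intro _; exact St_zero D μ N p hΛ
    | succ i ih =>
      intro hi
      refine St_succ D hb hW N p hΛ hη hc hsup hκpos.le hκ i ?_ (ih (by omega))
      have h1 : (i:ℝ) ≤ m := by exact_mod_cast (by omega : i ≤ m)
      calc (N:ℝ) * (i * 4) ≤ N * (m * 4) := by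
            refine mul_le_mul_of_nonneg_left ?_ (Nat.cast_nonneg _)
            linarith
        _ = (r:ℝ) ^ 2 * (4 * N) := by rw [hmr]; ring
        _ ≤ (r:ℝ) ^ 2 * (κ * L0 ^ 2) := mul_le_mul_of_nonneg_left hL0b (by positivity)
        _ = κ * Λ ^ 2 := by rw [hΛdef]; ring
  obtain ⟨Ω, _, _, F, T, θ, n, q, C, hC, hFc, hTc, hFT, hTB, hTL, hFL, hT2, hθ1, hθp, hθq,
    hPhi⟩ := hSt m le_rfl
  have hcard : (0:ℝ) < Fintype.card Ω := by exact_mod_cast Fintype.card_pos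
  have hex : ∃ ω, (m:ℝ) * (c / 2) ≤ Phi μ (θ ω) (F ω) := by
    by_contra hcon
    push Not at hcon
    have h1 : ∑ ω, Phi μ (θ ω) (F ω) < ∑ ω : Ω, (m:ℝ) * (c / 2) :=
      Finset.sum_lt_sum_of_nonempty Finset.univ_nonempty fun ω _ => hcon ω
    rw [Finset.sum_const, Finset.card_univ, nsmul_eq_mul] at h1
    linarith
  obtain ⟨ω, hω⟩ := hex
  have hdir : ∀ k, k < N → ∀ (x : E) (t : ℝ), |F ω (x + t • D.e k) - F ω x| ≤
      (Λ + 3) * |t| := by
    intro k hk x t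
    have h1 : ∀ u s : ℝ, |F ω (x + (u + s) • D.e k) - F ω (x + u • D.e k)| ≤
        (Λ + 3) * |s| + C * s ^ 2 := by
      intro u s
      have h2 := hFT ω k hk (x + u • D.e k) s
      have h3 := hTB ω k hk (x + u • D.e k)
      rw [add_smul, ← add_assoc]
      have h4 : (m:ℝ) * η ≤ 1 := by
        rw [hηdef, mul_one_div, div_le_one (by positivity)]; linarith
      have h5 := abs_add_le (F ω (x + u • D.e k + s • D.e k) - F ω (x + u • D.e k) -
        s * T ω k (x + u • D.e k)) (s * T ω k (x + u • D.e k))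
      rw [sub_add_cancel, abs_mul s] at h5
      have h6 : |s| * |T ω k (x + u • D.e k)| ≤ |s| * (Λ + 2) :=
        mul_le_mul_of_nonneg_left h3 (abs_nonneg _)
      have h7 : (m:ℝ) * η * |s| ≤ 1 * |s| := mul_le_mul_of_nonneg_right h4 (abs_nonneg _)
      linarith
    have h2 := subdiv (F := fun u => F ω (x + u • D.e k)) h1 t
    simpa using h2
  have hLN : LipN D N (N * (Λ + 3)) (m * 3) (F ω) := LipN_of_dir D (by linarith) hdir (hFL ω)
  have hfin := htail (θ ω) (hθ1 ω) (hθp ω) n (F ω) (N * (Λ + 3)) (m * 3) (hFc ω) (by positivity)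
    (by positivity) hLN
  have h1 : (m:ℝ) * (c / 4) ≤ b * (N * (Λ + 3)) := by linarith
  rw [hmr, hΛdef] at h1
  have h2 : b * (N * (r * L0 + 3)) ≤ b * (N * (r * (L0 + 3))) := by
    refine mul_le_mul_of_nonneg_left (mul_le_mul_of_nonneg_left ?_ (Nat.cast_nonneg _)) hb
    nlinarith
  have h3 : (r:ℝ) * (r * (c / 4)) ≤ r * (b * (N * (L0 + 3))) := by nlinarith
  have h4 : (r:ℝ) * (c / 4) ≤ b * (N * (L0 + 3)) := le_of_mul_le_mul_left h3 (by linarith)
  have h5 : 4 * b * (N * (L0 + 3)) / c < r := by linarith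
  rw [div_lt_iff₀ hc] at h5
  linarith

end Pool.Agent.X319.L2
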